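import Mathlib

/-!
# MP_d45172_nt: all integer solutions of `1/w+1/x+1/y+1/z+1/(wxyz)=0`
-/

namespace Pool.Agent.Results.MP_d45172_nt.AllSolutions

/-- `(w,x,y,z)` is a solution in nonzero integers. -/
def IsSol (w x y z : ℤ) : Prop :=
  w ≠ 0 ∧ x ≠ 0 ∧ y ≠ 0 ∧ z ≠ 0 ∧
    (1 / (w : ℚ) + 1 / (x : ℚ) + 1 / (y : ℚ) + 1 / (z : ℚ) +
      1 / ((w : ℚ) * (x : ℚ) * (y : ℚ) * (z : ℚ)) = 0)

theorem isSol_iff (w x y z : ℤ) : IsSol w x y z ↔ w ≠ 0 ∧ x ≠ 0 ∧ y ≠ 0 ∧ z ≠ 0 ∧
    (x + y) * (z * w) + (x * y) * (z + w) + 1 = 0 := by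
  unfold IsSol
  constructor
  · rintro ⟨hw, hx, hy, hz, h⟩
    refine ⟨hw, hx, hy, hz, ?_⟩
    have hw' : (w : ℚ) ≠ 0 := by exact_mod_cast hw
    have hx' : (x : ℚ) ≠ 0 := by exact_mod_cast hx
    have hy' : (y : ℚ) ≠ 0 := by exact_mod_cast hy
    have hz' : (z : ℚ) ≠ 0 := by exact_mod_cast hz
    field_simp at h
    have : (((x + y) * (z * w) + (x * y) * (z + w) + 1 : ℤ) : ℚ) = 0 := by
      push_cast
      linarith
    exact_mod_cast this
  · rintro ⟨hw, hx, hy, hz, h⟩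
    refine ⟨hw, hx, hy, hz, ?_⟩
    have hw' : (w : ℚ) ≠ 0 := by exact_mod_cast hw
    have hx' : (x : ℚ) ≠ 0 := by exact_mod_cast hx
    have hy' : (y : ℚ) ≠ 0 := by exact_mod_cast hy
    have hz' : (z : ℚ) ≠ 0 := by exact_mod_cast hz
    have h2 : (((x + y) * (z * w) + (x * y) * (z + w) + 1 : ℤ) : ℚ) = 0 := by
      rw [h]; simp
    push_cast at h2
    field_simp
    linarith

/-- `x²y²-x-y` never vanishes when `x,y` are nonzero integers. -/
theorem ne_zero_of {x y : ℤ} (hx : x ≠ 0) (hy : y ≠ 0) : x ^ 2 * y ^ 2 - x - y ≠ 0 := by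
  intro h
  have hdx : x ∣ y := ⟨x * y ^ 2 - 1, by linear_combination (-1) * h⟩
  have hdy : y ∣ x := ⟨x ^ 2 * y - 1, by linear_combination (-1) * h⟩
  have habs : x.natAbs = y.natAbs := Nat.dvd_antisymm (Int.natAbs_dvd_natAbs.mpr hdx)
    (Int.natAbs_dvd_natAbs.mpr hdy)
  rcases Int.natAbs_eq_natAbs_iff.mp habs with e | e
  · subst e
    -- x^4 = 2 x
    have h3 : x * (x ^ 3 - 2) = 0 := by linear_combination h
    rcases mul_eq_zero.mp h3 with h4 | h4
    · exact hx h4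
    · have h5 : x ^ 3 = 2 := by linarith
      have h6 : x ≤ 1 ∨ 2 ≤ x := by omega
      rcases h6 with h6 | h6
      · have h7 : x ≤ 0 ∨ x = 1 := by omega
        rcases h7 with h7 | h7
        · nlinarith [sq_nonneg x, mul_nonneg (sq_nonneg x) (neg_nonneg.mpr h7)]
        · subst h7; norm_num at h5
      · nlinarith [sq_nonneg x, mul_nonneg (sub_nonneg.mpr h6) (sq_nonneg x)]
  · rw [e] at h
    have h3 : y ^ 4 = 0 := by linear_combination h
    exact hy (pow_eq_zero_iff (by norm_num) |>.mp h3)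

/-- The complete description. -/
def Descr (w x y z : ℤ) : Prop :=
  (y = -x ∧ (x = 1 ∨ x = -1) ∧ z ≠ 0 ∧ z ≠ 1 ∧ w = 1 - z) ∨
  (x + y ≠ 0 ∧ x ≠ 0 ∧ y ≠ 0 ∧ IsCoprime x y ∧ ∃ d : ℤ,
    d ∣ x ^ 2 * y ^ 2 - x - y ∧ (x + y) ∣ d - x * y ∧ d ≠ x * y ∧
    (x ^ 2 * y ^ 2 - x - y) / d ≠ x * y ∧
    z = (d - x * y) / (x + y) ∧
    w = ((x ^ 2 * y ^ 2 - x - y) / d - x * y) / (x + y))

theorem forward {w x y z : ℤ} (h : IsSol w x y z) : Descr w x y z := by
  obtain ⟨hw, hx, hy, hz, h⟩ := (isSol_iff w x y z).mp h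
  by_cases hs : x + y = 0
  · left
    have hy' : y = -x := by linarith
    subst hy'
    have h1 : x ^ 2 * (z + w) = 1 := by linear_combination (-1) * h
    have h2 : IsUnit (x ^ 2) := IsUnit.of_mul_eq_one _ h1
    have h3 : IsUnit x := (isUnit_pow_iff (by norm_num)).mp h2
    have h4 : x = 1 ∨ x = -1 := Int.isUnit_iff.mp h3
    have h5 : x ^ 2 = 1 := by rcases h4 with h4 | h4 <;> rw [h4] <;> norm_num
    rw [h5] at h1
    have h6 : w = 1 - z := by linarith
    refine ⟨rfl, h4, hz, ?_, h6⟩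
    rintro rfl
    exact hw (by rw [h6]; norm_num)
  · right
    have hcop : IsCoprime x y := ⟨-(z * w) - y * (z + w), -(z * w), by linear_combination (-1) * h⟩
    have hprod : ((x + y) * z + x * y) * ((x + y) * w + x * y) = x ^ 2 * y ^ 2 - x - y := by
      linear_combination (x + y) * h
    have hne := ne_zero_of hx hy
    have hd0 : (x + y) * z + x * y ≠ 0 := by
      intro h0
      rw [h0, zero_mul] at hprod
      exact hne hprod.symm
    have hq : (x ^ 2 * y ^ 2 - x - y) / ((x + y) * z + x * y) = (x + y) * w + x * y := by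
      rw [← hprod]
      exact Int.mul_ediv_cancel_left _ hd0
    refine ⟨hs, hx, hy, hcop, (x + y) * z + x * y, ⟨_, hprod.symm⟩, ⟨z, by ring⟩, ?_, ?_, ?_, ?_⟩
    · intro h0
      have : (x + y) * z = 0 := by linarith
      rcases mul_eq_zero.mp this with h1 | h1
      · exact hs h1
      · exact hz h1
    · rw [hq]
      intro h0
      have : (x + y) * w = 0 := by linarith
      rcases mul_eq_zero.mp this with h1 | h1
      · exact hs h1
      · exact hw h1
    · rw [show (x + y) * z + x * y - x * y = (x + y) * z by ring]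
      exact (Int.mul_ediv_cancel_left _ hs).symm
    · rw [hq, show (x + y) * w + x * y - x * y = (x + y) * w by ring]
      exact (Int.mul_ediv_cancel_left _ hs).symm

theorem backward {w x y z : ℤ} (h : Descr w x y z) : IsSol w x y z := by
  rw [isSol_iff]
  rcases h with ⟨rfl, hx, hz, hz1, rfl⟩ | ⟨hs, hx, hy, hcop, d, ⟨e, he⟩, ⟨k, hk⟩, hd, hde, hz, hw⟩
  · have hx0 : x ≠ 0 := by rcases hx with h | h <;> rw [h] <;> norm_num
    have h5 : x ^ 2 = 1 := by rcases hx with h4 | h4 <;> rw [h4] <;> norm_num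
    refine ⟨fun h0 => hz1 (by linarith), hx0, neg_ne_zero.mpr hx0, hz, ?_⟩
    linear_combination (-1) * h5
  · have hne := ne_zero_of hx hy
    have hd0 : d ≠ 0 := by
      rintro rfl
      rw [zero_mul] at he
      exact hne he
    have hq : (x ^ 2 * y ^ 2 - x - y) / d = e := by
      rw [he]; exact Int.mul_ediv_cancel_left _ hd0
    rw [hq] at hde hw
    -- s ∣ e - p
    have hcop2 : IsCoprime (x + y) (x * y) := by
      have h1 : IsCoprime (x + y) x := by
        have := hcop.symm.add_mul_left_left 1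
        rw [mul_one] at this
        rw [add_comm]; exact this
      have h2 : IsCoprime (x + y) y := by
        have := hcop.add_mul_left_left 1
        rw [mul_one] at this
        exact this
      exact h1.mul_right h2
    have hdvd : (x + y) ∣ e - x * y := by
      have h1 : (x + y) ∣ (x * y) * (e - x * y) := by
        refine ⟨-1 - k * e, ?_⟩
        linear_combination (-1) * he - e * hk
      exact hcop2.dvd_of_dvd_mul_left h1
    obtain ⟨l, hl⟩ := hdvd
    have hzk : z = k := by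
      rw [hz, hk]; exact Int.mul_ediv_cancel_left _ hs
    have hwl : w = l := by
      rw [hw, hl]; exact Int.mul_ediv_cancel_left _ hs
    subst hzk hwl
    refine ⟨?_, hx, hy, ?_, ?_⟩
    · rintro rfl
      exact hde (by linarith)
    · rintro rfl
      exact hd (by linarith)
    · have h3 : (x + y) * ((x + y) * (z * w) + x * y * (z + w) + 1) = 0 := by
        have hd' : d = (x + y) * z + x * y := by linarith
        have he' : e = (x + y) * w + x * y := by linarith
        rw [hd', he'] at he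
        linear_combination (-1) * he
      rcases mul_eq_zero.mp h3 with h4 | h4
      · exact absurd h4 hs
      · exact h4

theorem abs_lower {x y z w : ℤ} (hx : x ≠ 0) (hxy : |x| ≤ |y|) (hyz : |y| ≤ |z|)
    (hzw : |z| ≤ |w|) (hs : x + y ≠ 0) (h : IsSol w x y z) :
    |y| ≤ 3 * |x| + 1 ∧ |w| ≤ 25 * |x| ^ 4 := by
  obtain ⟨hw, -, hy, hz, h⟩ := (isSol_iff w x y z).mp h
  have hX : 1 ≤ |x| := Int.one_le_abs hx
  have hY : 1 ≤ |y| := Int.one_le_abs hy
  have hZ : 1 ≤ |z| := Int.one_le_abs hz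
  have hW : 1 ≤ |w| := Int.one_le_abs hw
  have hyb : |y| ≤ 3 * |x| + 1 := by
    have e1 : y * z * w = -(x * (y * z + z * w + y * w) + 1) := by linear_combination h
    have e2 : |y| * |z| * |w| ≤ |x| * (|y| * |z| + |z| * |w| + |y| * |w|) + 1 := by
      have e20 : |y| * |z| * |w| = |x * (y * z + z * w + y * w) + 1| := by
        rw [← abs_mul, ← abs_mul, e1, abs_neg]
      rw [e20]
      calc |x * (y * z + z * w + y * w) + 1| ≤ |x * (y * z + z * w + y * w)| + |(1 : ℤ)| :=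
            abs_add_le _ _
        _ = |x| * |y * z + z * w + y * w| + 1 := by rw [abs_mul, abs_one]
        _ ≤ |x| * (|y| * |z| + |z| * |w| + |y| * |w|) + 1 := by
            have : |y * z + z * w + y * w| ≤ |y| * |z| + |z| * |w| + |y| * |w| := by
              calc |y * z + z * w + y * w| ≤ |y * z + z * w| + |y * w| := abs_add_le _ _
                _ ≤ |y * z| + |z * w| + |y * w| := by
                    have := abs_add_le (y * z) (z * w)
                    linarith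
                _ = _ := by rw [abs_mul, abs_mul, abs_mul]
            have := mul_le_mul_of_nonneg_left this (abs_nonneg x)
            linarith
    have e3 : |y| * |z| ≤ |z| * |w| := by
      rw [mul_comm |y| |z|]
      exact mul_le_mul_of_nonneg_left (hyz.trans hzw) (abs_nonneg z)
    have e4 : |y| * |w| ≤ |z| * |w| := mul_le_mul_of_nonneg_right hyz (abs_nonneg w)
    have e5 : |x| * (|y| * |z| + |z| * |w| + |y| * |w|) ≤ |x| * (3 * (|z| * |w|)) :=
      mul_le_mul_of_nonneg_left (by linarith) (abs_nonneg x)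
    have e6 : 1 ≤ |z| * |w| := one_le_mul_of_one_le_of_one_le hZ hW
    by_contra hcon
    have hcon2 : 2 ≤ |y| - 3 * |x| := by
      have := lt_of_not_ge hcon
      omega
    have e7 : 2 * 1 ≤ (|y| - 3 * |x|) * (|z| * |w|) :=
      mul_le_mul hcon2 e6 (by norm_num) (by linarith)
    nlinarith
  refine ⟨hyb, ?_⟩
  have hprod : ((x + y) * z + x * y) * ((x + y) * w + x * y) = x ^ 2 * y ^ 2 - x - y := by
    linear_combination (x + y) * h
  have hne := ne_zero_of hx hy
  have hd0 : (x + y) * z + x * y ≠ 0 := by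
    intro h0
    rw [h0, zero_mul] at hprod
    exact hne hprod.symm
  have hd1 : 1 ≤ |(x + y) * z + x * y| := Int.one_le_abs hd0
  have hE : |(x + y) * w + x * y| ≤ |x ^ 2 * y ^ 2 - x - y| := by
    rw [← hprod, abs_mul]
    nlinarith [abs_nonneg ((x + y) * w + x * y)]
  have hS : 1 ≤ |x + y| := Int.one_le_abs hs
  have hB : |x ^ 2 * y ^ 2 - x - y| ≤ |x| ^ 2 * |y| ^ 2 + |x| + |y| := by
    calc |x ^ 2 * y ^ 2 - x - y| ≤ |x ^ 2 * y ^ 2 - x| + |y| := abs_sub _ _
      _ ≤ |x ^ 2 * y ^ 2| + |x| + |y| := by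
          have := abs_sub (x ^ 2 * y ^ 2) x
          linarith
      _ = _ := by rw [abs_mul, abs_pow, abs_pow]
  have hwp : |w| ≤ |(x + y) * w + x * y| + |x| * |y| := by
    have h1 : |(x + y) * w| ≤ |(x + y) * w + x * y| + |x * y| := by
      have := abs_sub ((x + y) * w + x * y) (x * y)
      simpa using this
    rw [abs_mul, abs_mul x y] at h1
    nlinarith
  have hY4 : |y| ≤ 4 * |x| := by linarith
  have h3 : |x| * |y| ≤ 4 * |x| ^ 2 := by nlinarith
  have h4 : |x| ^ 2 * |y| ^ 2 ≤ 16 * |x| ^ 4 := by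
    have : (|x| * |y|) ^ 2 ≤ (4 * |x| ^ 2) ^ 2 := pow_le_pow_left₀ (by positivity) h3 2
    nlinarith
  have h5 : |x| ≤ |x| ^ 4 := le_self_pow₀ hX (by norm_num)
  have h6 : |x| ^ 2 ≤ |x| ^ 4 := pow_le_pow_right₀ hX (by norm_num)
  linarith

theorem family (n : ℤ) (hn : 2 ≤ n) :
    IsSol (-(n ^ 2 * (n + 1) ^ 2 - n * (n + 1) - 1)) (-n) (n + 1) (n ^ 2 + n - 1) := by
  rw [isSol_iff]
  refine ⟨?_, by omega, by omega, ?_, by ring⟩
  · have h1 : 0 < n ^ 2 * (n + 1) ^ 2 - n * (n + 1) - 1 := by nlinarith [sq_nonneg (n * (n + 1))]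
    omega
  · nlinarith

/-- **Main theorem.** The complete set of solutions, and the size of solutions. -/
theorem result :
    (∀ w x y z : ℤ, IsSol w x y z ↔
      (y = -x ∧ (x = 1 ∨ x = -1) ∧ z ≠ 0 ∧ z ≠ 1 ∧ w = 1 - z) ∨
      (x + y ≠ 0 ∧ x ≠ 0 ∧ y ≠ 0 ∧ IsCoprime x y ∧ ∃ d : ℤ,
        d ∣ x ^ 2 * y ^ 2 - x - y ∧ (x + y) ∣ d - x * y ∧ d ≠ x * y ∧
        (x ^ 2 * y ^ 2 - x - y) / d ≠ x * y ∧
        z = (d - x * y) / (x + y) ∧
        w = ((x ^ 2 * y ^ 2 - x - y) / d - x * y) / (x + y))) ∧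
    (∀ w x y z : ℤ, IsSol w x y z → |x| ≤ |y| → |y| ≤ |z| → |z| ≤ |w| → x + y ≠ 0 →
      |y| ≤ 3 * |x| + 1 ∧ |w| ≤ 25 * |x| ^ 4) ∧
    (∀ n : ℤ, 2 ≤ n →
      IsSol (-(n ^ 2 * (n + 1) ^ 2 - n * (n + 1) - 1)) (-n) (n + 1) (n ^ 2 + n - 1)) :=
  ⟨fun _ _ _ _ => ⟨forward, backward⟩,
    fun _ _ _ _ h hxy hyz hzw hs => abs_lower h.2.1 hxy hyz hzw hs h, family⟩

end Pool.Agent.Results.MP_d45172_nt.AllSolutions
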